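import Pool.Agent.V8H24.MX.Lim

/-!
Every symmetric probability measure on the integers that is non-increasing on the natural numbers
satisfies the weak type maximal inequality of every order.
-/

set_option autoImplicit false

namespace Pool.Agent.Results.MP_e7950b_an.WeakTypeAllOrders

open Finset Filter Topology Pool.Agent.V8H24.MX

/-- Convolution of two real functions on the integers. -/
noncomputable def conv (f g : ℤ → ℝ) (k : ℤ) : ℝ := ∑' j : ℤ, f j * g (k - j)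

/-- Convolution powers; the zeroth power is the unit mass at the origin. -/
noncomputable def convPow (ν : ℤ → ℝ) : ℕ → ℤ → ℝ
  | 0 => fun k => if k = 0 then 1 else 0
  | n + 1 => conv ν (convPow ν n)

/-- The signed measure `δ₀ - μ`. -/
noncomputable def deltaSub (μ : ℤ → ℝ) (k : ℤ) : ℝ := (if k = 0 then 1 else 0) - μ k

/-- The signed measure `μ^{*n} * (δ₀ - μ)^{*m}`. -/
noncomputable def ker (μ : ℤ → ℝ) (n m : ℕ) : ℤ → ℝ :=
  conv (convPow μ n) (convPow (deltaSub μ) m)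

/-- The convolution `ν * f` of a real `ν` and a complex `f`. -/
noncomputable def act (ν : ℤ → ℝ) (f : ℤ → ℂ) (k : ℤ) : ℂ := ∑' j : ℤ, (ν j : ℂ) * f (k - j)

/-- The maximal function `k ↦ sup_{n ≥ 1} n^m |μ^{*n} * (δ₀ - μ)^{*m} * f(k)|`. -/
noncomputable def maxFun (μ : ℤ → ℝ) (m : ℕ) (f : ℤ → ℂ) (k : ℤ) : ENNReal :=
  ⨆ n : ℕ, ⨆ _ : 1 ≤ n, ENNReal.ofReal ((n : ℝ) ^ m * ‖act (ker μ n m) f k‖)

/-- The centred Hardy-Littlewood maximal function on the integers. -/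
noncomputable def hlFun (f : ℤ → ℂ) (k : ℤ) : ENNReal :=
  ⨆ R : ℕ, ENNReal.ofReal ((∑ j ∈ Icc (-(R : ℤ)) (R : ℤ), ‖f (k - j)‖) / (2 * (R : ℝ) + 1))

lemma convPow_eq (μ : ℤ → ℝ) (n : ℕ) : convPow μ n = Pool.Agent.R248.Ritt.cvPow μ n := by
  induction n with
  | zero => rfl
  | succ n ih =>
    show conv μ (convPow μ n) = Pool.Agent.R248.Ritt.cv μ (Pool.Agent.R248.Ritt.cvPow μ n)
    rw [ih]
    rfl

lemma ker_eq (μ : ℤ → ℝ) (n m : ℕ) : ker μ n m = Pool.Agent.R248.Ritt.cv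
    (Pool.Agent.R248.Ritt.cvPow μ n) (Pool.Agent.R248.Ritt.cvPow (dm μ) m) := by
  unfold ker
  rw [convPow_eq, convPow_eq]
  rfl

section

variable {μ : ℤ → ℝ} (h0 : ∀ k, 0 ≤ μ k) (h1 : HasSum μ 1) (hs : ∀ k, μ (-k) = μ k)
  (ha : ∀ n : ℕ, μ ((n : ℤ) + 1) ≤ μ (n : ℤ))

include h0 h1 hs ha in
lemma maxFun_le (f : ℤ → ℂ) (hf : Summable fun k => ‖f k‖) (m : ℕ) (k : ℤ) (B : ℝ)
    (hB0 : 0 ≤ B)
    (hB : ∀ R : ℕ, ∑ j ∈ Icc (-(R : ℤ)) (R : ℤ), ‖f (k - j)‖ ≤ (2 * (R : ℝ) + 1) * B) :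
    maxFun μ m f k ≤ ENNReal.ofReal ((m.factorial : ℝ) * KD m * B) := by
  unfold maxFun
  refine iSup_le fun n => iSup_le fun _ => ENNReal.ofReal_le_ofReal ?_
  unfold act
  rw [ker_eq]
  exact pointwise h0 h1 hs ha f hf n m k B hB0 hB

lemma sum_avg (f : ℤ → ℂ) (k : ℤ) (R : ℕ) :
    ∑ j ∈ Icc (-(R : ℤ)) (R : ℤ), ‖f (k - j)‖ = ∑ j ∈ Icc (k - R) (k + R), ‖f j‖ := by
  refine sum_nbij' (fun j => k - j) (fun j => k - j) ?_ ?_ ?_ ?_ ?_
  · intro j hj
    rw [mem_Icc] at hj ⊢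
    constructor <;> omega
  · intro j hj
    rw [mem_Icc] at hj ⊢
    constructor <;> omega
  · intro j _; ring
  · intro j _; ring
  · intro j _; rfl

include h0 h1 hs ha in
lemma card_le (f : ℤ → ℂ) (hf : Summable fun k => ‖f k‖) (m : ℕ) (t : ℝ) (ht : 0 < t)
    (E : Finset ℤ) (hE : ∀ k ∈ E, ENNReal.ofReal t ≤ maxFun μ m f k) :
    t * (E.card : ℝ) ≤ (2 * ((m.factorial : ℝ) * KD m)) * ∑' k, ‖f k‖ := by
  set C := (m.factorial : ℝ) * KD m with hC
  have hC0 : 0 < C := mul_pos (by positivity) (KD_pos m)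
  have key : ∀ B : ℝ, 0 ≤ B → C * B < t → B * (E.card : ℝ) ≤ 2 * ∑' k, ‖f k‖ := by
    intro B hB0 hBt
    have hex : ∀ k : ℤ, ∃ R : ℕ, k ∈ E →
        (2 * (R : ℝ) + 1) * B ≤ ∑ j ∈ Icc (k - R) (k + R), ‖f j‖ := by
      intro k
      by_contra hcon
      push Not at hcon
      have hk := (hcon 0).1
      have h2 := maxFun_le h0 h1 hs ha f hf m k B hB0 (fun R => by
        rw [sum_avg]
        exact (hcon R).2.le)
      have h3 := (hE k hk).trans h2
      rw [ENNReal.ofReal_le_ofReal_iff (by positivity)] at h3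
      linarith
    choose r hr using hex
    have h2 := cover (fun j => ‖f j‖) (fun j => norm_nonneg _) r B hB0 E (fun k hk => hr k hk)
    have h3 : ∑ j ∈ E.biUnion (fun k => Icc (k - r k) (k + r k)), ‖f j‖ ≤ ∑' k, ‖f k‖ :=
      hf.sum_le_tsum _ fun _ _ => norm_nonneg _
    linarith
  by_contra hcon
  push Not at hcon
  have hE0 : (0 : ℝ) < E.card := by
    have hS : 0 ≤ ∑' k, ‖f k‖ := tsum_nonneg fun _ => norm_nonneg _
    have : 0 < t * (E.card : ℝ) := lt_of_le_of_lt (by positivity) hcon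
    exact pos_of_mul_pos_right this ht.le
  set S := ∑' k, ‖f k‖ with hS
  have hS0 : 0 ≤ S := tsum_nonneg fun _ => norm_nonneg _
  obtain ⟨t', ht1, ht2⟩ := exists_between (show max 0 ((2 * C) * S / E.card) < t by
    rw [max_lt_iff]
    refine ⟨ht, ?_⟩
    rw [div_lt_iff₀ hE0]
    exact hcon)
  rw [max_lt_iff] at ht1
  have h2 := key (t' / C) (div_nonneg ht1.1.le hC0.le) (by
    rw [mul_div_cancel₀ _ hC0.ne']
    exact ht2)
  have h3 := ht1.2
  rw [div_lt_iff₀ hE0] at h3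
  rw [div_mul_eq_mul_div, div_le_iff₀ hC0] at h2
  linarith

end

/-- Every symmetric probability measure `μ` on the integers which is non-increasing on the natural
numbers satisfies the weak type maximal inequality of order `m`, for every `m`, with a constant
depending only on `m`; moreover the maximal function of order `m` is bounded pointwise by a
multiple of the centred Hardy-Littlewood maximal function. -/
theorem result (m : ℕ) : ∃ C : ℝ, 0 < C ∧ ∀ μ : ℤ → ℝ, (∀ k, 0 ≤ μ k) → HasSum μ 1 →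
    (∀ k, μ (-k) = μ k) → (∀ n : ℕ, μ ((n : ℤ) + 1) ≤ μ (n : ℤ)) →
    ∀ f : ℤ → ℂ, Summable (fun k => ‖f k‖) →
      (∀ t : ℝ, 0 < t → {k : ℤ | ENNReal.ofReal t ≤ maxFun μ m f k}.Finite ∧
        t * ({k : ℤ | ENNReal.ofReal t ≤ maxFun μ m f k}.ncard : ℝ) ≤ C * ∑' k, ‖f k‖) ∧
      ∀ k, maxFun μ m f k ≤ ENNReal.ofReal C * hlFun f k := by
  have hC0 : 0 < (m.factorial : ℝ) * KD m := mul_pos (by positivity) (KD_pos m)
  refine ⟨2 * ((m.factorial : ℝ) * KD m), by positivity, ?_⟩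
  intro μ h0 h1 hs ha f hf
  refine ⟨fun t ht => ?_, fun k => ?_⟩
  · have hcard := card_le h0 h1 hs ha f hf m t ht
    set S := {k : ℤ | ENNReal.ofReal t ≤ maxFun μ m f k} with hS
    have hfin : S.Finite := by
      by_contra hinf
      have hinf' : S.Infinite := hinf
      obtain ⟨N, hN⟩ := exists_nat_gt ((2 * ((m.factorial : ℝ) * KD m)) * (∑' k, ‖f k‖) / t)
      obtain ⟨E, hES, hEN⟩ := hinf'.exists_subset_card_eq N
      have h2 := hcard E (fun k hk => hES hk)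
      rw [hEN] at h2
      rw [div_lt_iff₀ ht] at hN
      linarith
    refine ⟨hfin, ?_⟩
    rw [Set.ncard_eq_toFinset_card S hfin]
    exact hcard _ fun k hk => by
      rw [Set.Finite.mem_toFinset] at hk
      exact hk
  · set B := (hlFun f k).toReal with hB
    have hbd : ∀ R : ℕ, (∑ j ∈ Icc (-(R : ℤ)) (R : ℤ), ‖f (k - j)‖) / (2 * (R : ℝ) + 1) ≤
        ∑' k, ‖f k‖ := by
      intro R
      rw [div_le_iff₀ (by positivity), sum_avg]
      have h2 : ∑ j ∈ Icc (k - R) (k + R), ‖f j‖ ≤ ∑' k, ‖f k‖ :=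
        hf.sum_le_tsum _ fun _ _ => norm_nonneg _
      have h3 : 0 ≤ ∑' k, ‖f k‖ := tsum_nonneg fun _ => norm_nonneg _
      have h4 : (0 : ℝ) ≤ R := by positivity
      nlinarith
    have hfin : hlFun f k ≠ ⊤ := by
      refine ne_top_of_le_ne_top (b := ENNReal.ofReal (∑' k, ‖f k‖)) ENNReal.ofReal_ne_top ?_
      exact iSup_le fun R => ENNReal.ofReal_le_ofReal (hbd R)
    have hBe : ENNReal.ofReal B = hlFun f k := ENNReal.ofReal_toReal hfin
    have hB0 : 0 ≤ B := ENNReal.toReal_nonneg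
    have h2 := maxFun_le h0 h1 hs ha f hf m k B hB0 (fun R => by
      have h3 : ENNReal.ofReal ((∑ j ∈ Icc (-(R : ℤ)) (R : ℤ), ‖f (k - j)‖) / (2 * (R : ℝ) + 1)) ≤
          hlFun f k := le_iSup (fun R : ℕ =>
            ENNReal.ofReal ((∑ j ∈ Icc (-(R : ℤ)) (R : ℤ), ‖f (k - j)‖) / (2 * (R : ℝ) + 1))) R
      rw [← hBe, ENNReal.ofReal_le_ofReal_iff hB0, div_le_iff₀ (by positivity)] at h3
      linarith)
    refine h2.trans ?_
    rw [← hBe, ← ENNReal.ofReal_mul (by positivity)]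
    refine ENNReal.ofReal_le_ofReal ?_
    refine mul_le_mul_of_nonneg_right ?_ hB0
    linarith

end Pool.Agent.Results.MP_e7950b_an.WeakTypeAllOrders
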